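import Mathlib
import Pool.Agent.Helper61.KimuraDef
import Pool.Agent.Helper61.KimuraMain

/-!
# A Kimura Hadamard matrix of order 300 whose automorphism group has order divisible by 9
-/

set_option autoImplicit false

namespace Pool.Agent.Results.MP_db198d_co.OrderNineAutomorphism

open Pool.Agent.Helper61.Kimura

/-- There is a Kimura Hadamard matrix of dihedral type of order `8 * 37 + 4 = 300` whose
automorphism group has order divisible by `9`; in particular its order is not `2^r 3^s 37` with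
`s ≤ 1`. -/
theorem result : ∃ T : Fin 4 → Finset (DihedralGroup 37),
    IsHadamard (kimura T) ∧ 9 ∣ Nat.card (autSet (kimura T)) ∧
      ∀ r s : ℕ, s ≤ 1 → Nat.card (autSet (kimura T)) ≠ 2 ^ r * 3 ^ s * 37 := by
  refine ⟨TT, isHadamard_kimura, nine_dvd_aut, fun r s hs h => ?_⟩
  have h9 := nine_dvd_aut
  rw [h] at h9
  have hc1 : Nat.Coprime 9 37 := by norm_num
  have h1 : 9 ∣ 2 ^ r * 3 ^ s := hc1.dvd_of_dvd_mul_right h9
  have hc2 : Nat.Coprime 9 (2 ^ r) := Nat.Coprime.pow_right r (by norm_num)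
  have h2 : 9 ∣ 3 ^ s := hc2.dvd_of_dvd_mul_left h1
  have h3 : 3 ^ s ∣ 3 ^ 1 := pow_dvd_pow 3 hs
  have h4 := h2.trans h3
  omega

end Pool.Agent.Results.MP_db198d_co.OrderNineAutomorphism
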